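import Pool.Agent.NUTP.Data
import Pool.Agent.NUF.Gas.Uniq2

/-!
# Uniqueness of the family with ended lines (exact/TWOPOINT_UNIQ_h89, section 3)
-/

set_option autoImplicit false

open Polynomial Filter

noncomputable section

namespace NUTP

open NUGas

variable {θ χ q g : ℂ} {F F' : Fam}

/-! ### generic lists -/

lemma th_ne (hθ : θ ^ 8 = -1) : θ ≠ 0 := by
  rintro rfl; norm_num at hθ

lemma th16 (hθ : θ ^ 8 = -1) : θ ^ 16 = 1 := by
  rw [show (16 : ℕ) = 8 * 2 from rfl, pow_mul, hθ]; norm_num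

lemma eta_of (hθ : θ ^ 8 = -1) : (θ ^ 2) ^ 4 = -1 := by rw [← pow_mul]; exact hθ

lemma G.perm (hθ : θ ^ 8 = -1) {S S' : List ℂ} (h : S.Perm S') (hS : G θ S) : G θ S' :=
  Gen.perm (eta_of hθ) (h.map _) hS

lemma G.tail {a : ℂ} {S : List ℂ} (h : G θ (a :: S)) : G θ S := Gen.tail h

lemma G.ne0 {a : ℂ} {S : List ℂ} (h : G θ (a :: S)) : a ≠ 0 := by
  have := Gen.head h
  intro h0
  apply this
  rw [h0]; norm_num

lemma G.mem_ne0 {c : ℂ} {S : List ℂ} (h : G θ S) (hc : c ∈ S) : c ≠ 0 := by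
  have := h.1 (c ^ 2) (List.mem_map.2 ⟨c, hc, rfl⟩)
  intro h0
  apply this
  rw [h0]; norm_num

lemma G.sep {a c : ℂ} {S : List ℂ} (h : G θ (a :: S)) (hc : c ∈ S) (k : ℕ) :
    (θ ^ 2) ^ k * a ^ 2 ≠ c ^ 2 :=
  Gen.sep (X := S.map (· ^ 2)) h (List.mem_map.2 ⟨c, hc, rfl⟩) k

lemma G.subl {S S' : List ℂ} (h : S'.Sublist S) (hS : G θ S) : G θ S' :=
  ⟨fun x hx => hS.1 x ((h.map _).subset hx), hS.2.sublist (h.map _)⟩

lemma inv_sq_pow (hθ : θ ^ 8 = -1) (k : ℕ) : (θ⁻¹ ^ 2) ^ k = (θ ^ 2) ^ (7 * k) := by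
  have h1 : θ⁻¹ ^ 2 = (θ ^ 2) ^ 7 := by
    have h0 := th_ne hθ
    have h16 := th16 hθ
    rw [inv_pow]
    apply inv_eq_of_mul_eq_one_right
    rw [← pow_mul, ← pow_add]
    exact h16
  rw [h1, ← pow_mul]

lemma G.inv (hθ : θ ^ 8 = -1) {S : List ℂ} (h : G θ S) : G θ⁻¹ S := by
  refine ⟨h.1, h.2.imp ?_⟩
  intro a b hab k
  rw [inv_sq_pow hθ]
  exact hab _

lemma th_inv8 (hθ : θ ^ 8 = -1) : θ⁻¹ ^ 8 = -1 := by
  rw [inv_pow, hθ]; norm_num

lemma G.of_inv (hθ : θ ^ 8 = -1) {S : List ℂ} (h : G θ⁻¹ S) : G θ S := by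
  have := G.inv (th_inv8 hθ) h
  rwa [inv_inv] at this

lemma G.scale (hθ : θ ^ 8 = -1) {a : ℂ} {S : List ℂ} (h : G θ (a :: S)) (k : ℕ) :
    G θ (θ ^ k * a :: S) := by
  have := Gen.scale (eta_of hθ) (X := S.map (· ^ 2)) h k
  unfold G
  rw [List.map_cons, mul_pow]
  convert this using 3
  rw [← pow_mul, ← pow_mul]; ring

/-- a polynomial which vanishes at the squares of the generic lines is zero -/
lemma zero_of_gen (hθ : θ ^ 8 = -1) {S : List ℂ} (hS : G θ S) {Q : ℂ[X]}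
    (h : ∀ a, G θ (a :: S) → Q.eval (a ^ 2) = 0) : Q = 0 := by
  have h1 := eventually_gen (eta_of hθ) hS
  obtain ⟨T, hT⟩ := (h1.and (eventually_ge_atTop (0 : ℝ))).exists_forall_of_atTop
  have hinf : (Set.image (fun x : ℝ => (x : ℂ)) (Set.Ici T)).Infinite :=
    (Set.Ici_infinite T).image (fun x _ y _ h => by exact_mod_cast h)
  refine Polynomial.eq_zero_of_infinite_isRoot Q (hinf.mono ?_)
  rintro _ ⟨x, hx, rfl⟩
  obtain ⟨hx1, hx2⟩ := hT x hx
  have hsq : ((Real.sqrt x : ℝ) : ℂ) ^ 2 = (x : ℂ) := by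
    rw [← Complex.ofReal_pow, Real.sq_sqrt hx2]
  have := h ((Real.sqrt x : ℝ) : ℂ) (by
    unfold G
    rw [List.map_cons, hsq]
    exact hx1)
  rw [hsq] at this
  exact this

/-! ### the node polynomial -/

/-- the nodes -/
def nds (θ : ℂ) (I J : List ℂ) : List ℂ :=
  (I.map fun x => θ ^ 10 * x ^ 2) ++ (J.map fun y => θ ^ 6 * y ^ 2)

/-- product of linear factors -/
def ndp (L : List ℂ) : ℂ[X] := (L.map (fun a => Polynomial.X - C a)).prod

lemma ndp_monic (L : List ℂ) : (ndp L).Monic := by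
  unfold ndp
  exact monic_list_prod' _ (by
    intro p hp
    rw [List.mem_map] at hp
    obtain ⟨a, _, rfl⟩ := hp
    exact monic_X_sub_C a)

lemma ndp_natDegree (L : List ℂ) : (ndp L).natDegree = L.length := by
  induction L with
  | nil => simp [ndp]
  | cons a L ih =>
    have : ndp (a :: L) = (Polynomial.X - C a) * ndp L := rfl
    rw [this, Monic.natDegree_mul (monic_X_sub_C a) (ndp_monic L), ih, natDegree_X_sub_C]
    simp; ring

lemma ndp_dvd {L : List ℂ} (hL : L.Nodup) {d : ℂ[X]} (hd : ∀ t ∈ L, d.eval t = 0) :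
    ndp L ∣ d := by
  rcases eq_or_ne d 0 with rfl | hd0
  · exact dvd_zero _
  · have hn : ((L : List ℂ) : Multiset ℂ) ≤ d.roots := by
      rw [Multiset.le_iff_subset (by simpa using hL)]
      intro t ht
      rw [Polynomial.mem_roots hd0]
      exact hd t (by simpa using ht)
    have := (Multiset.prod_X_sub_C_dvd_iff_le_roots hd0 (L : Multiset ℂ)).2 hn
    simpa [ndp] using this

lemma ndp_eval_ne {L : List ℂ} {t : ℂ} (h : t ∉ L) : (ndp L).eval t ≠ 0 := by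
  induction L with
  | nil => simp [ndp]
  | cons a L ih =>
    have e : ndp (a :: L) = (Polynomial.X - C a) * ndp L := rfl
    rw [e, eval_mul]
    simp only [List.mem_cons, not_or] at h
    refine mul_ne_zero ?_ (ih h.2)
    simpa [sub_eq_zero] using h.1

lemma ndp_eval_mem {L : List ℂ} {t : ℂ} (h : t ∈ L) : (ndp L).eval t = 0 := by
  induction L with
  | nil => simp at h
  | cons a L ih =>
    have e : ndp (a :: L) = (Polynomial.X - C a) * ndp L := rfl
    rw [e, eval_mul]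
    rcases List.mem_cons.1 h with rfl | h
    · simp
    · rw [ih h, mul_zero]

lemma nds_length (I J : List ℂ) : (nds θ I J).length = I.length + J.length := by
  simp [nds]

lemma mem_nds {I J : List ℂ} {t : ℂ} :
    t ∈ nds θ I J ↔ (∃ x ∈ I, t = θ ^ 10 * x ^ 2) ∨ (∃ y ∈ J, t = θ ^ 6 * y ^ 2) := by
  simp only [nds, List.mem_append, List.mem_map]
  constructor
  · rintro (⟨x, hx, rfl⟩ | ⟨y, hy, rfl⟩)
    · exact Or.inl ⟨x, hx, rfl⟩
    · exact Or.inr ⟨y, hy, rfl⟩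
  · rintro (⟨x, hx, rfl⟩ | ⟨y, hy, rfl⟩)
    · exact Or.inl ⟨x, hx, rfl⟩
    · exact Or.inr ⟨y, hy, rfl⟩

/-- the squares of the lines in a generic list, multiplied by powers of `θ ^ 2`, are distinct -/
lemma pair_ne (hθ : θ ^ 8 = -1) {a b : ℂ} (h : Sep (θ ^ 2) (a ^ 2) (b ^ 2)) (j k : ℕ) :
    θ ^ (2 * j) * a ^ 2 ≠ θ ^ (2 * k) * b ^ 2 := by
  have h1 := Sep.mul_right (eta_of hθ) h k
  have := h1 j
  rwa [← pow_mul, ← pow_mul] at this

lemma nds_nodup (hθ : θ ^ 8 = -1) {I J : List ℂ} (h : G θ (I ++ J)) : (nds θ I J).Nodup := by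
  have h0 := th_ne hθ
  have hI : I.Pairwise fun a b => Sep (θ ^ 2) (a ^ 2) (b ^ 2) := by
    have := (h.subl (List.sublist_append_left I J)).2
    rwa [List.pairwise_map] at this
  have hJ : J.Pairwise fun a b => Sep (θ ^ 2) (a ^ 2) (b ^ 2) := by
    have := (h.subl (List.sublist_append_right I J)).2
    rwa [List.pairwise_map] at this
  have hIJ : ∀ a ∈ I, ∀ b ∈ J, Sep (θ ^ 2) (a ^ 2) (b ^ 2) := by
    have := h.2
    rw [List.pairwise_map, List.pairwise_append] at this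
    exact this.2.2
  unfold nds
  rw [List.nodup_append]
  refine ⟨?_, ?_, ?_⟩
  · rw [List.nodup_iff_pairwise_ne, List.pairwise_map]
    exact hI.imp fun {a b} hab => pair_ne hθ hab 5 5
  · rw [List.nodup_iff_pairwise_ne, List.pairwise_map]
    exact hJ.imp fun {a b} hab => pair_ne hθ hab 3 3
  · intro s hs t ht
    obtain ⟨x, hx, rfl⟩ := List.mem_map.1 hs
    obtain ⟨y, hy, rfl⟩ := List.mem_map.1 ht
    exact pair_ne hθ (hIJ x hx y hy) 5 3

/-- no node is a generic line times a power of `θ ^ 2` -/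
lemma not_mem_nds (hθ : θ ^ 8 = -1) {a : ℂ} {I J : List ℂ}
    (h : ∀ c ∈ I ++ J, Sep (θ ^ 2) (a ^ 2) (c ^ 2)) (k : ℕ) : θ ^ (2 * k) * a ^ 2 ∉ nds θ I J := by
  intro hm
  rcases mem_nds.1 hm with ⟨x, hx, e⟩ | ⟨y, hy, e⟩
  · exact pair_ne hθ (h x (List.mem_append_left _ hx)) k 5 e
  · exact pair_ne hθ (h y (List.mem_append_right _ hy)) k 3 e

lemma G.sep' {a c : ℂ} {S : List ℂ} (h : G θ (a :: S)) (hc : c ∈ S) :
    Sep (θ ^ 2) (a ^ 2) (c ^ 2) :=
  Gen.sep (X := S.map (· ^ 2)) h (List.mem_map.2 ⟨c, hc, rfl⟩)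

/-! ### differences -/

/-- difference of two families -/
def Fam.sub (F F' : Fam) : Fam where
  R := fun I J a => F.R I J a - F'.R I J a
  L := fun I J a => F.L I J a - F'.L I J a
  OE := fun I J a b => F.OE I J a b - F'.OE I J a b
  EO := fun I J a b => F.EO I J a b - F'.EO I J a b
  OE' := fun I J a b => F.OE' I J a b - F'.OE' I J a b
  EO' := fun I J a b => F.EO' I J a b - F'.EO' I J a b
  RE := fun I J a b => F.RE I J a b - F'.RE I J a b
  ER := fun I J a b => F.ER I J a b - F'.ER I J a b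

lemma mir_sub : (F.sub F').mir = F.mir.sub F'.mir := rfl

theorem Half.sub (h : Half θ χ q g F) (h' : Half θ χ q g F') : Half θ χ q g (F.sub F') where
  polR := by
    intro I J hG
    obtain ⟨P, d, v, n1, n2⟩ := h.polR I J hG
    obtain ⟨P', d', v', n1', n2'⟩ := h'.polR I J hG
    refine ⟨P - P', (natDegree_sub_le _ _).trans (max_le d d'), ?_, ?_, ?_⟩
    · intro p hp
      rw [eval_sub, ← v p hp, ← v' p hp]
      simp only [Fam.sub]; ring
    · intro x I' hI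
      rw [eval_sub, n1 x I' hI, n1' x I' hI]
      simp only [Fam.sub]; ring
    · intro x I' hI
      rw [eval_sub, n2 x I' hI, n2' x I' hI]
      simp only [Fam.sub]; ring
  polOE := by
    intro I J a hG
    obtain ⟨P, d, t, b, v, n1, n2⟩ := h.polOE I J a hG
    obtain ⟨P', d', t', b', v', n1', n2'⟩ := h'.polOE I J a hG
    refine ⟨P - P', (natDegree_sub_le _ _).trans (max_le d d'), ?_, ?_, ?_, ?_, ?_⟩
    · rw [coeff_sub, t, t']; simp only [Fam.sub]; ring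
    · rw [coeff_sub, b, b']; simp only [Fam.sub]; ring
    · intro p hp
      rw [eval_sub, ← v p hp, ← v' p hp]
      simp only [Fam.sub]; ring
    · intro x I' hI
      rw [eval_sub, n1 x I' hI, n1' x I' hI]
      simp only [Fam.sub]; ring
    · rw [eval_sub, n2, n2', sub_zero]
  polOEo := by
    intro I J a hG
    obtain ⟨P, v, n1⟩ := h.polOEo I J a hG
    obtain ⟨P', v', n1'⟩ := h'.polOEo I J a hG
    refine ⟨P - P', ?_, ?_⟩
    · intro p hp
      rw [eval_sub, ← v p hp, ← v' p hp]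
      simp only [Fam.sub]; ring
    · intro x I' hI
      rw [eval_sub, n1 x I' hI, n1' x I' hI]
      simp only [Fam.sub]; ring
  polEO := by
    intro I J a hG
    obtain ⟨P, d, t, b, v, n1, n2, n3⟩ := h.polEO I J a hG
    obtain ⟨P', d', t', b', v', n1', n2', n3'⟩ := h'.polEO I J a hG
    refine ⟨P - P', (natDegree_sub_le _ _).trans (max_le d d'), ?_, ?_, ?_, ?_, ?_, ?_⟩
    · rw [coeff_sub, t, t']; simp only [Fam.sub]; ring
    · rw [coeff_sub, b, b']; simp only [Fam.sub]; ring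
    · intro p hp
      rw [eval_sub, ← v p hp, ← v' p hp]
      simp only [Fam.sub]; ring
    · intro x I' hI
      rw [eval_sub, n1 x I' hI, n1' x I' hI]
      simp only [Fam.sub]; ring
    · rw [eval_sub, n2, n2', sub_zero]
    · rw [eval_sub, n3, n3']; simp only [Fam.sub]; ring
  polEOo := by
    intro I J a hG
    obtain ⟨P, v, n1⟩ := h.polEOo I J a hG
    obtain ⟨P', v', n1'⟩ := h'.polEOo I J a hG
    refine ⟨P - P', ?_, ?_⟩
    · intro p hp
      rw [eval_sub, ← v p hp, ← v' p hp]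
      simp only [Fam.sub]; ring
    · intro x I' hI
      rw [eval_sub, n1 x I' hI, n1' x I' hI]
      simp only [Fam.sub]; ring
  ex1 := by
    intro I J a b hG
    have e := h.ex1 I J a b hG
    have e' := h'.ex1 I J a b hG
    simp only [Fam.sub]
    linear_combination e - e'
  ex2 := by
    intro I J a b hG
    have e := h.ex2 I J a b hG
    have e' := h'.ex2 I J a b hG
    simp only [Fam.sub]
    linear_combination e - e'
  polER := by
    intro I J a hG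
    obtain ⟨P, d, t, b, v, n1, n2⟩ := h.polER I J a hG
    obtain ⟨P', d', t', b', v', n1', n2'⟩ := h'.polER I J a hG
    refine ⟨P - P', (natDegree_sub_le _ _).trans (max_le d d'), ?_, ?_, ?_, ?_, ?_⟩
    · rw [coeff_sub, t, t']; simp only [Fam.sub]; ring
    · rw [coeff_sub, b, b']; simp only [Fam.sub]; ring
    · intro p hp
      rw [eval_sub, ← v p hp, ← v' p hp]
      simp only [Fam.sub]; ring
    · intro x I' hI
      rw [eval_sub, n1 x I' hI, n1' x I' hI]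
      simp only [Fam.sub]; ring
    · intro x I' hI
      rw [eval_sub, n2 x I' hI, n2' x I' hI]
      simp only [Fam.sub]; ring

/-! ### the induction -/

/-- all functions with `n` full lines vanish -/
def Z (θ q g : ℂ) (F : Fam) (n : ℕ) : Prop := ∀ I J : List ℂ, I.length + J.length = n →
  (∀ a, G θ (a :: q :: g :: (I ++ J)) → F.R I J a = 0 ∧ F.L I J a = 0) ∧
  (∀ a b, G θ (a :: b :: q :: g :: (I ++ J)) →
    (F.OE I J a b = 0 ∧ F.EO I J a b = 0) ∧ (F.OE' I J a b = 0 ∧ F.EO' I J a b = 0) ∧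
      F.RE I J a b = 0 ∧ F.ER I J a b = 0)

lemma Z.mir (hθ : θ ^ 8 = -1) {n : ℕ} (h : Z θ q g F n) : Z θ⁻¹ g q F.mir n := by
  intro I J hN
  obtain ⟨h1, h2⟩ := h I J hN
  refine ⟨fun a ha => ?_, fun a b hab => ?_⟩
  · have := G.perm hθ (List.Perm.cons a (List.Perm.swap q g (I ++ J))) (G.of_inv hθ ha)
    exact ⟨(h1 a this).2, (h1 a this).1⟩
  · have e1 := G.perm hθ (((List.Perm.swap q g (I ++ J)).cons b).cons a) (G.of_inv hθ hab)
    have e2 := G.perm hθ (List.Perm.swap b a _) e1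
    obtain ⟨u1, u2, u3, u4⟩ := h2 a b e1
    obtain ⟨v1, v2, v3, v4⟩ := h2 b a e2
    exact ⟨u2, u1, v4, v3⟩

/-- removing a full line keeps the rest generic -/
lemma G.remI (hθ : θ ^ 8 = -1) {S I I' J : List ℂ} {x : ℂ} (hI : I.Perm (x :: I'))
    (h : G θ (S ++ (I ++ J))) : G θ (x :: (S ++ (I' ++ J))) := by
  refine G.perm hθ ?_ h
  have h1 : (S ++ (I ++ J)).Perm (S ++ (x :: (I' ++ J))) :=
    (List.Perm.append_right J hI).append_left S
  exact h1.trans List.perm_middle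

lemma G.remJ (hθ : θ ^ 8 = -1) {S I J J' : List ℂ} {y : ℂ} (hJ : J.Perm (y :: J'))
    (h : G θ (S ++ (I ++ J))) : G θ (y :: (S ++ (I ++ J'))) := by
  refine G.perm hθ ?_ h
  have h1 : (S ++ (I ++ J)).Perm (S ++ (y :: (I ++ J'))) :=
    ((List.Perm.append_left I hJ).trans List.perm_middle).append_left S
  exact h1.trans List.perm_middle

lemma len_of_perm {I I' : List ℂ} {x : ℂ} (h : I.Perm (x :: I')) : I.length = I'.length + 1 := by
  rw [h.length_eq]; rfl

/-- one step: a polynomial of degree `≤ N + k` which vanishes at the nodes -/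
lemma fac (hθ : θ ^ 8 = -1) {I J : List ℂ} (hG : G θ (I ++ J)) {P : ℂ[X]} {k : ℕ}
    (hd : P.natDegree ≤ I.length + J.length + k)
    (h1 : ∀ x ∈ I, P.eval (θ ^ 10 * x ^ 2) = 0) (h2 : ∀ y ∈ J, P.eval (θ ^ 6 * y ^ 2) = 0) :
    ∃ Q : ℂ[X], P = ndp (nds θ I J) * Q ∧ Q.natDegree ≤ k := by
  obtain ⟨Q, hQ⟩ := ndp_dvd (nds_nodup hθ hG) (d := P) (by
    intro t ht
    rcases mem_nds.1 ht with ⟨x, hx, rfl⟩ | ⟨y, hy, rfl⟩
    · exact h1 x hx
    · exact h2 y hy)
  refine ⟨Q, hQ, ?_⟩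
  rcases eq_or_ne Q 0 with rfl | h0
  · simp
  · have := (ndp_monic (nds θ I J)).natDegree_mul' h0
    rw [← hQ, ndp_natDegree, nds_length] at this
    omega

/-- `κ ^ 2 = -2` for `κ = θ ^ 2 - θ ^ (-2)` -/
lemma kap_sq (hθ : θ ^ 8 = -1) : (θ ^ 2 - (θ ^ 2)⁻¹) ^ 2 = -2 := by
  have h0 := th_ne hθ
  have h1 : θ ^ 2 ≠ 0 := pow_ne_zero _ h0
  field_simp
  linear_combination hθ

/-- the two by two system of the exchange relations -/
lemma sys (hθ : θ ^ 8 = -1) {a A B u v : ℂ} (ha : a ≠ 0) (hA : a ^ 2 = A)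
    (hAB : A ^ 2 + B ^ 2 ≠ 0)
    (e1 : (θ ^ 2 - (θ ^ 2)⁻¹) * (a * u) + (B - A) * v = 0)
    (e2 : (θ ^ 2 - (θ ^ 2)⁻¹) * (a * B * v) + (B - A) * u = 0) : u = 0 ∧ v = 0 := by
  have hk := kap_sq hθ
  set κ := θ ^ 2 - (θ ^ 2)⁻¹ with hκ
  have hκ0 : κ ≠ 0 := by rintro h; rw [h] at hk; norm_num at hk
  have h1 : (A ^ 2 + B ^ 2) * v = 0 := by
    have : κ * a * ((κ * (a * B * v) + (B - A) * u)) - (B - A) * (κ * (a * u) + (B - A) * v) = 0 := by
      rw [e1, e2]; ring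
    have h2 : κ ^ 2 * (a ^ 2 * B * v) - (B - A) ^ 2 * v = 0 := by linear_combination this
    rw [hk, hA] at h2
    linear_combination -h2
  have hv : v = 0 := by
    rcases mul_eq_zero.1 h1 with h | h
    · exact absurd h hAB
    · exact h
  refine ⟨?_, hv⟩
  rw [hv, mul_zero, add_zero] at e1
  have := (mul_eq_zero.1 e1).resolve_left hκ0
  exact (mul_eq_zero.1 this).resolve_left ha

/-! ### the exchange relations in cleared form -/

lemma sk_div (hθ : θ ^ 8 = -1) {a b : ℂ} (ha : a ≠ 0) (hb : b ≠ 0) :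
    4 * θ ^ 13 * (a ^ 2 * b ^ 2) * sk θ (b / a) =
      (θ ^ 4 * b ^ 2 - a ^ 2) * (θ ^ 6 * b ^ 2 - a ^ 2) := by
  have h0 := th_ne hθ
  unfold sk sn
  field_simp
  ring

lemma sn3_div (hθ : θ ^ 8 = -1) {a b : ℂ} (ha : a ≠ 0) (hb : b ≠ 0) :
    2 * θ ^ 7 * (a * b) * sn θ 3 (a / b) = θ ^ 6 * a ^ 2 - b ^ 2 := by
  have h0 := th_ne hθ
  unfold sn
  field_simp

lemma sn0_div (hθ : θ ^ 8 = -1) {a b : ℂ} (ha : a ≠ 0) (hb : b ≠ 0) :
    2 * θ ^ 4 * (a * b) * sn θ 0 (b / a) = b ^ 2 - a ^ 2 := by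
  have h0 := th_ne hθ
  unfold sn
  field_simp

lemma sn2_one (hθ : θ ^ 8 = -1) : 2 * θ ^ 4 * sn θ 2 1 = θ ^ 2 - (θ ^ 2)⁻¹ := by
  have h0 := th_ne hθ
  unfold sn
  field_simp

lemma clr (hθ : θ ^ 8 = -1) {a b X Y W : ℂ} (ha : a ≠ 0) (hb : b ≠ 0)
    (h : sk θ (b / a) * X = sn θ 3 (a / b) * (sn θ 2 1 * Y + sn θ 0 (b / a) * W)) :
    (θ ^ 4 * b ^ 2 - a ^ 2) * (θ ^ 6 * b ^ 2 - a ^ 2) * X =
      θ ^ 2 * (θ ^ 6 * a ^ 2 - b ^ 2) *
        ((θ ^ 2 - (θ ^ 2)⁻¹) * (a * b * Y) + (b ^ 2 - a ^ 2) * W) := by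
  have h0 := th_ne hθ
  rw [← sk_div hθ ha hb, ← sn3_div hθ ha hb, ← sn2_one hθ, ← sn0_div hθ ha hb]
  linear_combination 4 * θ ^ 13 * (a ^ 2 * b ^ 2) * h

/-- `OE` vanishes at the nodes `θ ^ 10 x ^ 2` too -/
lemma exX (hθ : θ ^ 8 = -1) (h : Half θ χ q g F) {n : ℕ} (hZ : Z θ q g F n) {I J : List ℂ}
    (hN : I.length + J.length = n + 1) {a : ℂ} (hG : G θ (a :: q :: g :: (I ++ J))) {P : ℂ[X]}
    (hP : ∀ b, G θ (b :: a :: q :: g :: (I ++ J)) →
      b ^ (I.length + J.length + 2) * F.OE I J a b = P.eval (b ^ 2)) :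
    ∀ x ∈ I, P.eval (θ ^ 10 * x ^ 2) = 0 := by
  intro x hx
  obtain ⟨I', hI⟩ : ∃ I', I.Perm (x :: I') := ⟨I.erase x, List.perm_cons_erase hx⟩
  have ha0 := hG.ne0
  have hlen := len_of_perm hI
  obtain ⟨P1, v1, n1⟩ := h.polOEo I J a hG
  obtain ⟨P2, -, -, -, v2, n2, -⟩ := h.polEO I J a hG
  obtain ⟨P3, v3, -⟩ := h.polEOo I J a hG
  set κ := θ ^ 2 - (θ ^ 2)⁻¹ with hκ
  have hg : G θ (x :: ([a, q, g] ++ (I' ++ J))) := G.remI hθ (S := [a, q, g]) hI hG
  have z1 : P1.eval (θ ^ 10 * x ^ 2) = 0 := by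
    rw [n1 x I' hI]
    have := ((hZ I' J (by omega)).2 a x (G.perm hθ (List.Perm.swap a x _) hg)).2.2.2
    rw [this, mul_zero]
  have z2 : P2.eval (θ ^ 10 * x ^ 2) = 0 := by
    rw [n2 x I' hI]
    have := ((hZ I' J (by omega)).2 a x (G.perm hθ (List.Perm.swap a x _) hg)).2.2.1
    rw [this, mul_zero]
  have q1 : (C (θ ^ 4) * Polynomial.X - C (a ^ 2)) * (C (θ ^ 6) * Polynomial.X - C (a ^ 2)) * P1 -
      C (θ ^ 2) * (C (θ ^ 6 * a ^ 2) - Polynomial.X) *
        (C κ * (C a * P) + (Polynomial.X - C (a ^ 2)) * P3) = 0 := by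
    refine zero_of_gen hθ hG fun b hb => ?_
    have hb0 := hb.ne0
    have e := clr hθ ha0 hb0 (h.ex1 I J a b (G.perm hθ (List.Perm.swap a b _) hb))
    simp only [eval_sub, eval_mul, eval_add, eval_C, eval_X]
    rw [← v1 b hb, ← hP b hb, ← v3 b hb]
    linear_combination b ^ (I.length + J.length + 1) * e
  have q2 : (C (θ ^ 4) * Polynomial.X - C (a ^ 2)) * (C (θ ^ 6) * Polynomial.X - C (a ^ 2)) * P2 -
      C (θ ^ 2) * (C (θ ^ 6 * a ^ 2) - Polynomial.X) *
        (C κ * (C a * Polynomial.X * P3) + (Polynomial.X - C (a ^ 2)) * P) = 0 := by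
    refine zero_of_gen hθ hG fun b hb => ?_
    have hb0 := hb.ne0
    have e := clr hθ ha0 hb0 (h.ex2 I J a b (G.perm hθ (List.Perm.swap a b _) hb))
    simp only [eval_sub, eval_mul, eval_add, eval_C, eval_X]
    rw [← v2 b hb, ← hP b hb, ← v3 b hb]
    linear_combination b ^ (I.length + J.length + 2) * e
  have hsep : Sep (θ ^ 2) (x ^ 2) (a ^ 2) := hg.sep' (by simp)
  have hne : θ ^ 2 * (θ ^ 6 * a ^ 2 - θ ^ 10 * x ^ 2) ≠ 0 := by
    refine mul_ne_zero (pow_ne_zero _ (th_ne hθ)) (sub_ne_zero.2 ?_)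
    exact (pair_ne hθ hsep 5 3).symm
  have e1 := congrArg (eval (θ ^ 10 * x ^ 2)) q1
  have e2 := congrArg (eval (θ ^ 10 * x ^ 2)) q2
  simp only [eval_sub, eval_mul, eval_add, eval_C, eval_X, eval_zero, z1, z2, mul_zero,
    zero_sub, neg_eq_zero] at e1 e2
  have e1' := (mul_eq_zero.1 e1).resolve_left hne
  have e2' := (mul_eq_zero.1 e2).resolve_left hne
  refine (sys hθ (A := a ^ 2) (B := θ ^ 10 * x ^ 2) ha0 rfl ?_ e1' e2').1
  intro hs
  have h1 : (a ^ 2 - θ ^ 14 * x ^ 2) * (a ^ 2 - θ ^ 22 * x ^ 2) = 0 := by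
    linear_combination hs + (-(a ^ 2 * x ^ 2 * θ ^ 14) + x ^ 4 * θ ^ 20 * (θ ^ 8 - 1)) * hθ
  rcases mul_eq_zero.1 h1 with h2 | h2
  · exact pair_ne hθ hsep 7 0 (by simpa using (sub_eq_zero.1 h2).symm)
  · exact pair_ne hθ hsep 11 0 (by simpa using (sub_eq_zero.1 h2).symm)

/-- `EO` vanishes at the nodes `θ ^ 6 y ^ 2` too -/
lemma exY (hθ : θ ^ 8 = -1) (h : Half θ χ q g F) {n : ℕ} (hZ : Z θ q g F n) {I J : List ℂ}
    (hN : I.length + J.length = n + 1) {b : ℂ} (hG : G θ (b :: q :: g :: (I ++ J))) {P : ℂ[X]}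
    (hP : ∀ a, G θ (a :: b :: q :: g :: (I ++ J)) →
      a ^ (I.length + J.length + 2) * F.EO I J a b = P.eval (a ^ 2)) :
    ∀ y ∈ J, P.eval (θ ^ 6 * y ^ 2) = 0 := by
  intro x hx
  obtain ⟨I', hI⟩ : ∃ I', J.Perm (x :: I') := ⟨J.erase x, List.perm_cons_erase hx⟩
  have hb0 := hG.ne0
  have hlen := len_of_perm hI
  obtain ⟨P1, -, -, -, v1, n1, -⟩ := h.polOE I J b hG
  obtain ⟨P2, v2, n2⟩ := h.polEOo I J b hG
  obtain ⟨P3, v3, -⟩ := h.polOEo I J b hG
  set κ := θ ^ 2 - (θ ^ 2)⁻¹ with hκ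
  have hg : G θ (x :: ([b, q, g] ++ (I ++ I'))) := G.remJ hθ (S := [b, q, g]) hI hG
  have z1 : P1.eval (θ ^ 6 * x ^ 2) = 0 := by
    rw [n1 x I' hI]
    have := ((hZ I I' (by omega)).2 b x (G.perm hθ (List.Perm.swap b x _) hg)).2.2.1
    rw [this, mul_zero]
  have z2 : P2.eval (θ ^ 6 * x ^ 2) = 0 := by
    rw [n2 x I' hI]
    have := ((hZ I I' (by omega)).2 b x (G.perm hθ (List.Perm.swap b x _) hg)).2.2.2
    rw [this, mul_zero]
  have q1 : (C (θ ^ 4 * b ^ 2) - Polynomial.X) * (C (θ ^ 6 * b ^ 2) - Polynomial.X) * P1 -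
      C (θ ^ 2) * (C (θ ^ 6) * Polynomial.X - C (b ^ 2)) *
        (C κ * (C b * Polynomial.X * P3) + (C (b ^ 2) - Polynomial.X) * P) = 0 := by
    refine zero_of_gen hθ hG fun a ha => ?_
    have ha0 := ha.ne0
    have e := clr hθ ha0 hb0 (h.ex1 I J a b ha)
    simp only [eval_sub, eval_mul, eval_add, eval_C, eval_X]
    rw [← v1 a ha, ← hP a ha, ← v3 a ha]
    linear_combination a ^ (I.length + J.length + 2) * e
  have q2 : (C (θ ^ 4 * b ^ 2) - Polynomial.X) * (C (θ ^ 6 * b ^ 2) - Polynomial.X) * P2 -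
      C (θ ^ 2) * (C (θ ^ 6) * Polynomial.X - C (b ^ 2)) *
        (C κ * (C b * P) + (C (b ^ 2) - Polynomial.X) * P3) = 0 := by
    refine zero_of_gen hθ hG fun a ha => ?_
    have ha0 := ha.ne0
    have e := clr hθ ha0 hb0 (h.ex2 I J a b ha)
    simp only [eval_sub, eval_mul, eval_add, eval_C, eval_X]
    rw [← v2 a ha, ← hP a ha, ← v3 a ha]
    linear_combination a ^ (I.length + J.length + 1) * e
  have hsep : Sep (θ ^ 2) (x ^ 2) (b ^ 2) := hg.sep' (by simp)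
  have hne : θ ^ 2 * (θ ^ 6 * (θ ^ 6 * x ^ 2) - b ^ 2) ≠ 0 := by
    refine mul_ne_zero (pow_ne_zero _ (th_ne hθ)) (sub_ne_zero.2 ?_)
    have := pair_ne hθ hsep 6 0
    rw [mul_zero, pow_zero, one_mul] at this
    intro hh
    apply this
    rw [← hh]; ring
  have e1 := congrArg (eval (θ ^ 6 * x ^ 2)) q1
  have e2 := congrArg (eval (θ ^ 6 * x ^ 2)) q2
  simp only [eval_sub, eval_mul, eval_add, eval_C, eval_X, eval_zero, z1, z2, mul_zero,
    zero_sub, neg_eq_zero] at e1 e2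
  have e1' := (mul_eq_zero.1 e1).resolve_left hne
  have e2' := (mul_eq_zero.1 e2).resolve_left hne
  refine (sys hθ (a := b) (A := b ^ 2) (B := θ ^ 6 * x ^ 2) (u := P.eval (θ ^ 6 * x ^ 2))
    (v := -P3.eval (θ ^ 6 * x ^ 2)) hb0 rfl ?_ ?_ ?_).1
  · intro hs
    have h1 : (b ^ 2 - θ ^ 10 * x ^ 2) * (b ^ 2 - θ ^ 18 * x ^ 2) = 0 := by
      linear_combination hs + (-(b ^ 2 * x ^ 2 * θ ^ 10) + x ^ 4 * θ ^ 12 * (θ ^ 8 - 1)) * hθ
    rcases mul_eq_zero.1 h1 with h2 | h2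
    · exact pair_ne hθ hsep 5 0 (by simpa using (sub_eq_zero.1 h2).symm)
    · exact pair_ne hθ hsep 9 0 (by simpa using (sub_eq_zero.1 h2).symm)
  · linear_combination e2'
  · linear_combination -e1'

/-! ### the step -/

lemma prod_cs {w : ℂ} (hw : w ≠ 0) {S : List ℂ} (hS : ∀ c ∈ S, c ≠ 0) :
    2 ^ S.length * w ^ S.length * S.prod * (S.map fun c => cs (w / c)).prod =
      (S.map fun c => w ^ 2 + c ^ 2).prod := by
  induction S with
  | nil => simp
  | cons c S ih =>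
    have hc : c ≠ 0 := hS c (by simp)
    rw [List.map_cons, List.prod_cons, List.map_cons, List.prod_cons, List.prod_cons,
      List.length_cons, ← ih fun c hc => hS c (by simp [hc])]
    have : 2 * w * c * cs (w / c) = w ^ 2 + c ^ 2 := by
      unfold cs
      field_simp
    rw [← this]
    ring

lemma tp_eq {S : List ℂ} (hS : ∀ c ∈ S, c ≠ 0) : 2 ^ S.length * S.prod * tp S = 1 := by
  unfold tp
  induction S with
  | nil => simp
  | cons c S ih =>
    have hc : c ≠ 0 := hS c (by simp)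
    rw [List.map_cons, List.prod_cons, List.prod_cons, List.length_cons]
    have := ih fun c hc => hS c (by simp [hc])
    calc _ = (2 * c * (2 * c)⁻¹) *
        (2 ^ S.length * S.prod * (List.map (fun c => (2 * c)⁻¹) S).prod) := by ring
      _ = 1 := by rw [this, mul_inv_cancel₀ (mul_ne_zero two_ne_zero hc), mul_one]

lemma bt_eq (S : List ℂ) : 2 ^ S.length * bt S = S.prod := by
  unfold bt
  induction S with
  | nil => simp
  | cons c S ih =>
    rw [List.map_cons, List.prod_cons, List.prod_cons, List.length_cons, ← ih]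
    ring

lemma quad {P : ℂ[X]} (h : P.natDegree ≤ 2) (A : ℂ) :
    P.eval A = P.coeff 2 * A ^ 2 + P.coeff 1 * A + P.coeff 0 := by
  rw [eval_eq_sum_range' (show P.natDegree < 3 by omega), Finset.sum_range_succ,
    Finset.sum_range_succ, Finset.sum_range_one]
  ring

lemma G.pair (hθ : θ ^ 8 = -1) {S : List ℂ} (hS : G θ S) {x c : ℂ} (hx : x ∈ S) (hc : c ∈ S)
    {j k : ℕ} (hjk : θ ^ (2 * j) ≠ θ ^ (2 * k)) :
    θ ^ (2 * j) * x ^ 2 ≠ θ ^ (2 * k) * c ^ 2 := by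
  rcases eq_or_ne x c with rfl | hne
  · intro h
    have hx0 := hS.mem_ne0 hx
    exact hjk (mul_right_cancel₀ (pow_ne_zero 2 hx0) h)
  · have h1 : S.Pairwise fun a b => Sep (θ ^ 2) (a ^ 2) (b ^ 2) := by
      have := hS.2
      rwa [List.pairwise_map] at this
    have : Std.Symm fun a b : ℂ => Sep (θ ^ 2) (a ^ 2) (b ^ 2) :=
      ⟨fun a b h => Sep.symm (eta_of hθ) h⟩
    exact pair_ne hθ (h1.forall hx hc hne) j k

lemma th_pow_ne (hθ : θ ^ 8 = -1) {j k : ℕ} (hjk : j < k) (hk : (k - j) % 8 ≠ 0) :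
    θ ^ (2 * j) ≠ θ ^ (2 * k) := by
  intro h
  have h1 : (θ ^ 2) ^ (k - j) = 1 := by
    have : θ ^ (2 * k) = θ ^ (2 * j) * (θ ^ 2) ^ (k - j) := by
      rw [← pow_mul, ← pow_add]; congr 1; omega
    rw [this] at h
    exact (mul_left_cancel₀ (pow_ne_zero _ (th_ne hθ)) (by rw [mul_one]; exact h)).symm
  exact eta_pow_ne_one (eta_of hθ) hk h1

lemma G.nd (hθ : θ ^ 8 = -1) {I J : List ℂ} (hS : G θ (I ++ J)) {x : ℂ} (hx : x ∈ I ++ J) {j : ℕ}
    (h5 : θ ^ (2 * j) ≠ θ ^ (2 * 5)) (h3 : θ ^ (2 * j) ≠ θ ^ (2 * 3)) :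
    (ndp (nds θ I J)).eval (θ ^ (2 * j) * x ^ 2) ≠ 0 := by
  apply ndp_eval_ne
  intro hm
  rcases mem_nds.1 hm with ⟨c, hc, e⟩ | ⟨c, hc, e⟩
  · exact hS.pair hθ hx (List.mem_append_left _ hc) h5 e
  · exact hS.pair hθ hx (List.mem_append_right _ hc) h3 e

lemma G.nd' (hθ : θ ^ 8 = -1) {a : ℂ} {I J S : List ℂ} (h : G θ (a :: (S ++ (I ++ J)))) (j : ℕ) :
    (ndp (nds θ I J)).eval (θ ^ (2 * j) * a ^ 2) ≠ 0 := by
  apply ndp_eval_ne
  exact not_mem_nds hθ (fun c hc => h.sep' (List.mem_append_right _ hc)) j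

lemma prod_ne {f : ℂ → ℂ} {S : List ℂ} (h : ∀ c ∈ S, f c ≠ 0) : (S.map f).prod ≠ 0 := by
  induction S with
  | nil => simp
  | cons c S ih =>
    rw [List.map_cons, List.prod_cons]
    exact mul_ne_zero (h c (by simp)) (ih fun c hc => h c (by simp [hc]))

lemma eval_prod_lin (S : List ℂ) (a B : ℂ) :
    ((S.map fun c => C a * Polynomial.X + C (c ^ 2)).prod).eval B =
      (S.map fun c => a * B + c ^ 2).prod := by
  induction S with
  | nil => simp
  | cons c S ih =>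
    rw [List.map_cons, List.prod_cons, eval_mul, ih]
    simp

/-- the identity obtained from the fusion relation -/
lemma key (hθ : θ ^ 8 = -1) {N : ℕ} {b c R R' g2 g1 g0 n0 n4 n2 n1 Pi CS PR TP BT sl V : ℂ}
    (hb : b ≠ 0)
    (hR : b ^ N * R = n1 * c) (hR' : (θ * b) ^ N * R' = n2 * c)
    (htp : 2 ^ (N + 2) * (b * Pi) * TP = 1) (hbt : 2 ^ (N + 2) * BT = b * Pi)
    (hg2 : g2 = TP * R) (hg0 : n0 * g0 = BT * R)
    (hz : g2 * (θ ^ 6 * b ^ 2) ^ 2 + g1 * (θ ^ 6 * b ^ 2) + g0 = 0)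
    (hV : V = g2 * (θ ^ 4 * b ^ 2) ^ 2 + g1 * (θ ^ 4 * b ^ 2) + g0)
    (hf : n4 * V = (θ ^ 2 * b) ^ (N + 2) * (sl * CS) * R')
    (hCS : 2 ^ (N + 1) * (θ * b) ^ (N + 1) * Pi * CS = PR)
    (hsl : 2 * θ ^ 3 * sl = 1 - (θ ^ 2)⁻¹) :
    c * ((1 - θ ^ 2) * n4 * (n0 * b ^ 2 + (θ ^ 2)⁻¹ * Pi ^ 2) * n1 +
      n0 * (1 - (θ ^ 2)⁻¹) * PR * n2) = 0 := by
  have h0 := th_ne hθ
  have h2 : θ ^ 2 ≠ 0 := pow_ne_zero _ h0
  set u := (θ ^ 2)⁻¹ with hu
  have hu1 : θ ^ 2 * u = 1 := mul_inv_cancel₀ h2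
  have hVe : V = -(1 - θ ^ 2) * (g2 * b ^ 4 + u * g0) := by
    rw [hV]
    linear_combination u * hz - g1 * θ ^ 4 * b ^ 2 * hu1 - (g2 * θ ^ 10 * b ^ 4) * hu1 - g0 * hu1
      + g2 * b ^ 4 * (1 - θ ^ 2) * hθ
  have hA : 2 ^ (N + 2) * (b * Pi) * g2 = R := by rw [hg2]; linear_combination R * htp
  have hB : 2 ^ (N + 2) * (n0 * g0) = b * Pi * R := by rw [hg0]; linear_combination R * hbt
  have hE : n0 * 2 ^ (N + 2) * (b * Pi) * V =
      -(1 - θ ^ 2) * b ^ 2 * (n0 * b ^ 2 + u * Pi ^ 2) * R := by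
    rw [hVe]
    linear_combination (-(1 - θ ^ 2) * n0 * b ^ 4) * hA + (-(1 - θ ^ 2) * u * (b * Pi)) * hB
  have hfin : θ ^ (2 * N + 1) * b ^ (2 * N + 3) * (c * ((1 - θ ^ 2) * n4 * (n0 * b ^ 2 +
      u * Pi ^ 2) * n1 + n0 * (1 - u) * PR * n2)) = 0 := by
    have e1 : θ ^ (2 * N + 1) * b ^ (2 * N + 3) * (c * ((1 - θ ^ 2) * n4 * (n0 * b ^ 2 +
        u * Pi ^ 2) * n1)) = -(n4 * (θ * b) ^ (2 * N + 1) * b ^ N *
        (n0 * 2 ^ (N + 2) * (b * Pi) * V)) := by
      rw [hE]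
      calc _ = (θ * b) ^ (2 * N + 1) * b ^ 2 * ((1 - θ ^ 2) * n4 * (n0 * b ^ 2 +
        u * Pi ^ 2) * (n1 * c)) := by ring
        _ = _ := by rw [← hR]; ring
    have e2 : n4 * (θ * b) ^ (2 * N + 1) * b ^ N * (n0 * 2 ^ (N + 2) * (b * Pi) * V) =
        θ ^ (2 * N + 1) * b ^ (2 * N + 3) * (c * (n0 * (1 - u) * PR * n2)) := by
      calc _ = (θ * b) ^ (2 * N + 1) * b ^ N * (n0 * 2 ^ (N + 2) * (b * Pi)) * (n4 * V) := by ring
        _ = (2 * θ ^ 3 * sl) * (2 ^ (N + 1) * (θ * b) ^ (N + 1) * Pi * CS) *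
            ((θ * b) ^ N * R') * n0 * (θ ^ (2 * N + 1) * b ^ (2 * N + 3)) := by
          rw [hf]; ring
        _ = _ := by rw [hsl, hCS, hR']; ring
    rw [mul_add, mul_add, e1, e2]
    ring
  exact (mul_eq_zero.1 hfin).resolve_left
    (mul_ne_zero (pow_ne_zero _ h0) (pow_ne_zero _ hb))

lemma sl_eq (hθ : θ ^ 8 = -1) : 2 * θ ^ 3 * sn θ 1 1 = 1 - (θ ^ 2)⁻¹ := by
  have h0 := th_ne hθ
  unfold sn
  field_simp

/-- the three functions of the right side vanish at the next level -/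
theorem stepR (hθ : θ ^ 8 = -1) (h : Half θ χ q g F) {n : ℕ} (hZ : Z θ q g F n) {I J : List ℂ}
    (hN : I.length + J.length = n + 1) (hG : G θ (q :: g :: (I ++ J))) :
    (∀ a, G θ (a :: q :: g :: (I ++ J)) → F.R I J a = 0) ∧
    (∀ a b, G θ (a :: b :: q :: g :: (I ++ J)) → F.OE I J a b = 0 ∧ F.EO I J a b = 0) := by
  have h0 := th_ne hθ
  have hIJ : G θ (I ++ J) := hG.tail.tail
  set N := I.length + J.length with hNdef
  set nd := ndp (nds θ I J) with hnd
  have hlen : ∀ a : ℂ, (a :: q :: (I ++ J)).length = N + 2 := fun a => by simp [hNdef]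
  have hlen' : (q :: (I ++ J)).length = N + 1 := by simp [hNdef]
  have hS0 : ∀ c ∈ q :: (I ++ J), c ≠ 0 := by
    intro c hc
    refine hG.mem_ne0 ?_
    rcases List.mem_cons.1 hc with rfl | hc
    · simp
    · simp [hc]
  have hn0 : nd.coeff 0 ≠ 0 := by
    rw [coeff_zero_eq_eval_zero]
    apply ndp_eval_ne
    intro hm
    rcases mem_nds.1 hm with ⟨c, hc, e⟩ | ⟨c, hc, e⟩
    · exact mul_ne_zero (pow_ne_zero _ h0)
        (pow_ne_zero _ (hIJ.mem_ne0 (List.mem_append_left _ hc))) e.symm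
    · exact mul_ne_zero (pow_ne_zero _ h0)
        (pow_ne_zero _ (hIJ.mem_ne0 (List.mem_append_right _ hc))) e.symm
  -- the occupied line
  obtain ⟨PR, dR, vR, nI, nJ⟩ := h.polR I J hG
  obtain ⟨Q, hQ, dQ⟩ := fac hθ hIJ (P := PR) (k := 0) (by simpa using dR) (by
      intro x hx
      obtain ⟨I', hI⟩ : ∃ I', I.Perm (x :: I') := ⟨I.erase x, List.perm_cons_erase hx⟩
      have hl := len_of_perm hI
      have hg : G θ (x :: ([q, g] ++ (I' ++ J))) := G.remI hθ (S := [q, g]) hI hG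
      rw [nI x I' hI, ((hZ I' J (by omega)).1 x hg).2, mul_zero]) (by
      intro x hx
      obtain ⟨I', hI⟩ : ∃ I', J.Perm (x :: I') := ⟨J.erase x, List.perm_cons_erase hx⟩
      have hl := len_of_perm hI
      have hg : G θ (x :: ([q, g] ++ (I ++ I'))) := G.remJ hθ (S := [q, g]) hI hG
      rw [nJ x I' hI, ((hZ I I' (by omega)).1 x hg).2, mul_zero])
  have hQc : Q = C (Q.coeff 0) := eq_C_of_natDegree_eq_zero (by omega)
  set c := Q.coeff 0 with hc
  have hR : ∀ a, G θ (a :: q :: g :: (I ++ J)) →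
      a ^ N * F.R I J a = nd.eval (a ^ 2) * c := by
    intro a ha
    rw [vR a ha, hQ, eval_mul, hQc, eval_C]
  -- the double line with the empty line at the bottom
  have hEO : ∀ b, G θ (b :: q :: g :: (I ++ J)) → ∃ Gp : ℂ[X], Gp.natDegree ≤ 2 ∧
      Gp.coeff 2 = tp (b :: q :: (I ++ J)) * F.R I J b ∧
      nd.coeff 0 * Gp.coeff 0 = bt (b :: q :: (I ++ J)) * F.R I J b ∧
      Gp.eval (θ ^ 6 * b ^ 2) = 0 ∧
      nd.eval (θ ^ 4 * b ^ 2) * Gp.eval (θ ^ 4 * b ^ 2) = (θ ^ 2 * b) ^ (N + 2) *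
        (sn θ 1 1 * ((q :: (I ++ J)).map fun c => cs (θ * b / c)).prod) * F.R I J (θ * b) ∧
      ∀ a, G θ (a :: b :: q :: g :: (I ++ J)) →
        a ^ (N + 2) * F.EO I J a b = nd.eval (a ^ 2) * Gp.eval (a ^ 2) := by
    intro b hb
    obtain ⟨P, d, t, bb, v, n1, n2, n3⟩ := h.polEO I J b hb
    obtain ⟨Gp, hGp, dG⟩ := fac hθ hIJ (P := P) (k := 2) d (by
      intro x hx
      obtain ⟨I', hI⟩ : ∃ I', I.Perm (x :: I') := ⟨I.erase x, List.perm_cons_erase hx⟩
      have hl := len_of_perm hI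
      have hg : G θ (x :: ([b, q, g] ++ (I' ++ J))) := G.remI hθ (S := [b, q, g]) hI hb
      rw [n1 x I' hI, ((hZ I' J (by omega)).2 b x
        (G.perm hθ (List.Perm.swap b x _) hg)).2.2.1, mul_zero])
      (exY hθ h hZ hN hb v)
    refine ⟨Gp, dG, ?_, ?_, ?_, ?_, ?_⟩
    · rw [← t, hGp, coeff_mul_add_eq_of_natDegree_le (by rw [ndp_natDegree, nds_length]) dG]
      have := ndp_monic (nds θ I J)
      rw [Monic, leadingCoeff, ndp_natDegree, nds_length] at this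
      rw [this, one_mul]
    · rw [← bb, hGp, mul_coeff_zero]
    · rw [hGp, eval_mul] at n2
      exact (mul_eq_zero.1 n2).resolve_left (G.nd' hθ (S := [q, g]) hb 3)
    · rw [← n3, hGp, eval_mul]
    · intro a ha
      rw [v a ha, hGp, eval_mul]
  -- the constant is zero
  have hc0 : c = 0 := by
    by_contra hcne
    set Pi := (q :: (I ++ J)).prod with hPi
    set Qp : ℂ[X] := C (1 - θ ^ 2) * nd.comp (C (θ ^ 4) * Polynomial.X) *
        (C (nd.coeff 0) * Polynomial.X + C ((θ ^ 2)⁻¹ * Pi ^ 2)) * nd +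
      C (nd.coeff 0 * (1 - (θ ^ 2)⁻¹)) *
        ((q :: (I ++ J)).map fun c => C (θ ^ 2) * Polynomial.X + C (c ^ 2)).prod *
        nd.comp (C (θ ^ 2) * Polynomial.X) with hQp
    have hev : ∀ B, Qp.eval B = (1 - θ ^ 2) * nd.eval (θ ^ 4 * B) *
        (nd.coeff 0 * B + (θ ^ 2)⁻¹ * Pi ^ 2) * nd.eval B +
        nd.coeff 0 * (1 - (θ ^ 2)⁻¹) *
          ((q :: (I ++ J)).map fun c => θ ^ 2 * B + c ^ 2).prod * nd.eval (θ ^ 2 * B) := by
      intro B
      rw [hQp]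
      simp only [eval_add, eval_mul, eval_C, eval_X, eval_comp, eval_prod_lin]
    have hQp0 : Qp = 0 := by
      refine zero_of_gen hθ hG fun b hb => ?_
      have hb0 := hb.ne0
      obtain ⟨Gp, dG, g2, g0, gz, gf, -⟩ := hEO b hb
      have hb' : G θ (θ * b :: q :: g :: (I ++ J)) := by
        have := G.scale hθ hb 1
        rwa [pow_one] at this
      have e1 := hR b hb
      have e2 := hR (θ * b) hb'
      have htp : 2 ^ (N + 2) * (b * Pi) * tp (b :: q :: (I ++ J)) = 1 := by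
        have := tp_eq (S := b :: q :: (I ++ J)) (by
          intro c hc
          rcases List.mem_cons.1 hc with rfl | hc
          · exact hb0
          · exact hS0 c hc)
        rw [hlen, List.prod_cons] at this
        exact this
      have hbt : 2 ^ (N + 2) * bt (b :: q :: (I ++ J)) = b * Pi := by
        have := bt_eq (b :: q :: (I ++ J))
        rw [hlen, List.prod_cons] at this
        exact this
      have hcs := prod_cs (w := θ * b) (mul_ne_zero h0 hb0) hS0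
      rw [hlen'] at hcs
      have k := key hθ hb0 e1 (n2 := nd.eval (θ ^ 2 * b ^ 2)) (c := c)
        (by rw [e2, mul_pow]) htp hbt g2 g0
        (g1 := Gp.coeff 1) (by rw [← quad dG]; exact gz) (quad dG (θ ^ 4 * b ^ 2)) gf hcs
        (sl_eq hθ)
      rw [hev]
      have k2 := (mul_eq_zero.1 k).resolve_left hcne
      simp only [mul_pow] at k2
      exact k2
    -- a special value
    have hone : (1 - (θ ^ 2)⁻¹ : ℂ) ≠ 0 := by
      intro h1
      have h2 : θ ^ 2 ≠ 0 := pow_ne_zero _ h0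
      have h3 : θ ^ 2 = 1 := by
        have : (θ ^ 2)⁻¹ = 1 := by linear_combination -h1
        have := congrArg (fun t => θ ^ 2 * t) this
        simpa [mul_inv_cancel₀ h2] using this.symm
      have := th_pow_ne hθ (j := 0) (k := 1) (by norm_num) (by norm_num)
      apply this
      simp [h3]
    have key2 : ∀ (B : ℂ) (x : ℂ) (j : ℕ), x ∈ I ++ J → θ ^ 2 * B = θ ^ (2 * j) * x ^ 2 →
        (nd.eval B = 0 ∨ nd.eval (θ ^ 4 * B) = 0) →
        θ ^ (2 * j) ≠ θ ^ (2 * 5) → θ ^ (2 * j) ≠ θ ^ (2 * 3) → θ ^ (2 * j) ≠ θ ^ (2 * 4) →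
        False := by
      intro B x j hx hB hz h5 h3 h4
      have e := hev B
      rw [hQp0, eval_zero, hB] at e
      have e3 : nd.coeff 0 * (1 - (θ ^ 2)⁻¹) *
          ((q :: (I ++ J)).map fun c => θ ^ (2 * j) * x ^ 2 + c ^ 2).prod *
          nd.eval (θ ^ (2 * j) * x ^ 2) = 0 := by
        rcases hz with hz | hz <;> rw [hz] at e <;> linear_combination -e
      refine mul_ne_zero (mul_ne_zero (mul_ne_zero hn0 hone) (prod_ne ?_))
        (hIJ.nd hθ hx h5 h3) e3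
      intro c hc h6
      have hx' : x ∈ q :: g :: (I ++ J) := by
        simp only [List.mem_cons]; right; right; exact hx
      have hc' : c ∈ q :: g :: (I ++ J) := by
        rcases List.mem_cons.1 hc with rfl | hc
        · simp
        · simp [hc]
      refine hG.pair hθ hx' hc' (j := j) (k := 4) h4 ?_
      rw [show (2 * 4) = 8 from rfl, hθ]
      linear_combination h6
    rcases I with _ | ⟨x, I'⟩
    · rcases J with _ | ⟨y, J'⟩
      · simp at hN
      · refine key2 (θ ^ 2 * y ^ 2) y 2 (by simp) (by ring) (Or.inr ?_) ?_ ?_ ?_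
        · rw [hnd]
          apply ndp_eval_mem
          exact mem_nds.2 (Or.inr ⟨y, by simp, by ring⟩)
        · exact th_pow_ne hθ (by norm_num) (by norm_num)
        · exact th_pow_ne hθ (by norm_num) (by norm_num)
        · exact th_pow_ne hθ (by norm_num) (by norm_num)
    · refine key2 (θ ^ 10 * x ^ 2) x 6 (by simp) (by ring) (Or.inl ?_) ?_ ?_ ?_
      · rw [hnd]
        apply ndp_eval_mem
        exact mem_nds.2 (Or.inl ⟨x, by simp, rfl⟩)
      · exact (th_pow_ne hθ (by norm_num) (by norm_num)).symm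
      · exact (th_pow_ne hθ (by norm_num) (by norm_num)).symm
      · exact (th_pow_ne hθ (by norm_num) (by norm_num)).symm
  have hR0 : ∀ a, G θ (a :: q :: g :: (I ++ J)) → F.R I J a = 0 := by
    intro a ha
    have := hR a ha
    rw [hc0, mul_zero] at this
    exact (mul_eq_zero.1 this).resolve_left (pow_ne_zero _ ha.ne0)
  refine ⟨hR0, fun a b hab => ⟨?_, ?_⟩⟩
  · -- `OE`
    have ha : G θ (a :: q :: g :: (I ++ J)) := by
      have := G.perm hθ (List.Perm.swap b a _) hab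
      exact this.tail
    have hb := G.perm hθ (List.Perm.swap b a _) hab
    have ha0 := ha.ne0
    obtain ⟨P, d, t, bb, v, n1, n2⟩ := h.polOE I J a ha
    obtain ⟨Gp, hGp, dG⟩ := fac hθ hIJ (P := P) (k := 2) d (exX hθ h hZ hN ha v) (by
      intro x hx
      obtain ⟨I', hI⟩ : ∃ I', J.Perm (x :: I') := ⟨J.erase x, List.perm_cons_erase hx⟩
      have hl := len_of_perm hI
      have hg : G θ (x :: ([a, q, g] ++ (I ++ I'))) := G.remJ hθ (S := [a, q, g]) hI ha
      rw [n1 x I' hI, ((hZ I I' (by omega)).2 a x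
        (G.perm hθ (List.Perm.swap a x _) hg)).2.2.1, mul_zero])
    have c2 : Gp.coeff 2 = 0 := by
      have e : P.coeff (N + 2) = Gp.coeff 2 := by
        rw [hGp, coeff_mul_add_eq_of_natDegree_le (by rw [ndp_natDegree, nds_length]) dG]
        have := ndp_monic (nds θ I J)
        rw [Monic, leadingCoeff, ndp_natDegree, nds_length] at this
        rw [this, one_mul]
      rw [← e, t, hR0 a ha, mul_zero]
    have c0 : Gp.coeff 0 = 0 := by
      rw [hGp, mul_coeff_zero, hR0 a ha, mul_zero] at bb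
      exact (mul_eq_zero.1 bb).resolve_left hn0
    have c1 : Gp.coeff 1 = 0 := by
      rw [hGp, eval_mul] at n2
      have := (mul_eq_zero.1 n2).resolve_left (G.nd' hθ (S := [q, g]) ha 5)
      rw [quad dG, c2, c0] at this
      have h1 : Gp.coeff 1 * (θ ^ 10 * a ^ 2) = 0 := by linear_combination this
      exact (mul_eq_zero.1 h1).resolve_right (mul_ne_zero (pow_ne_zero _ h0) (pow_ne_zero _ ha0))
    have e := v b hb
    rw [hGp, eval_mul, quad dG, c2, c1, c0] at e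
    have e' : b ^ (N + 2) * F.OE I J a b = 0 := by rw [e]; ring
    exact (mul_eq_zero.1 e').resolve_left (pow_ne_zero _ hb.ne0)
  · -- `EO`
    have hb : G θ (b :: q :: g :: (I ++ J)) := hab.tail
    have hb0 := hb.ne0
    obtain ⟨Gp, dG, g2, g0, gz, -, gv⟩ := hEO b hb
    rw [hR0 b hb, mul_zero] at g2 g0
    have c0 := (mul_eq_zero.1 g0).resolve_left hn0
    have c1 : Gp.coeff 1 = 0 := by
      rw [quad dG, g2, c0] at gz
      have h1 : Gp.coeff 1 * (θ ^ 6 * b ^ 2) = 0 := by linear_combination gz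
      exact (mul_eq_zero.1 h1).resolve_right (mul_ne_zero (pow_ne_zero _ h0) (pow_ne_zero _ hb0))
    have e := gv a hab
    rw [quad dG, g2, c1, c0] at e
    have e' : a ^ (N + 2) * F.EO I J a b = 0 := by rw [e]; ring
    exact (mul_eq_zero.1 e').resolve_left (pow_ne_zero _ hab.ne0)

/-- the function with one line on each side -/
theorem stepER (hθ : θ ^ 8 = -1) (h : Half θ χ q g F) {n : ℕ} (hZ : Z θ q g F n) {I J : List ℂ}
    (hN : I.length + J.length = n + 1) {r k : ℂ} (hG : G θ (r :: k :: q :: g :: (I ++ J)))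
    (hL : F.L I J k = 0) : F.ER I J r k = 0 := by
  have h0 := th_ne hθ
  have hIJ : G θ (I ++ J) := hG.tail.tail.tail.tail
  have hk := hG.tail
  obtain ⟨P, d, t, bb, v, n1, n2⟩ := h.polER I J k hk
  obtain ⟨Gp, hGp, dG⟩ := fac hθ hIJ (P := P) (k := 1) d (by
      intro x hx
      obtain ⟨I', hI⟩ : ∃ I', I.Perm (x :: I') := ⟨I.erase x, List.perm_cons_erase hx⟩
      have hl := len_of_perm hI
      have hg : G θ (x :: ([k, q, g] ++ (I' ++ J))) := G.remI hθ (S := [k, q, g]) hI hk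
      rw [n1 x I' hI, ((hZ I' J (by omega)).2 x k hg).2.1.2, mul_zero]) (by
      intro x hx
      obtain ⟨I', hI⟩ : ∃ I', J.Perm (x :: I') := ⟨J.erase x, List.perm_cons_erase hx⟩
      have hl := len_of_perm hI
      have hg : G θ (x :: ([k, q, g] ++ (I ++ I'))) := G.remJ hθ (S := [k, q, g]) hI hk
      rw [n2 x I' hI, ((hZ I I' (by omega)).2 k x
        (G.perm hθ (List.Perm.swap k x _) hg)).2.1.1, mul_zero])
  have hn0 : (ndp (nds θ I J)).coeff 0 ≠ 0 := by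
    rw [coeff_zero_eq_eval_zero]
    apply ndp_eval_ne
    intro hm
    rcases mem_nds.1 hm with ⟨c, hc, e⟩ | ⟨c, hc, e⟩
    · exact mul_ne_zero (pow_ne_zero _ h0)
        (pow_ne_zero _ (hIJ.mem_ne0 (List.mem_append_left _ hc))) e.symm
    · exact mul_ne_zero (pow_ne_zero _ h0)
        (pow_ne_zero _ (hIJ.mem_ne0 (List.mem_append_right _ hc))) e.symm
  have c1 : Gp.coeff 1 = 0 := by
    have e : P.coeff (I.length + J.length + 1) = Gp.coeff 1 := by
      rw [hGp, coeff_mul_add_eq_of_natDegree_le (by rw [ndp_natDegree, nds_length]) dG]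
      have := ndp_monic (nds θ I J)
      rw [Monic, leadingCoeff, ndp_natDegree, nds_length] at this
      rw [this, one_mul]
    rw [← e, t, hL, mul_zero]
  have c0 : Gp.coeff 0 = 0 := by
    rw [hGp, mul_coeff_zero, hL, mul_zero] at bb
    exact (mul_eq_zero.1 bb).resolve_left hn0
  have c2 : Gp.coeff 2 = 0 := coeff_eq_zero_of_natDegree_lt (by omega)
  have e := v r hG
  rw [hGp, eval_mul, quad (dG.trans one_le_two), c2, c1, c0] at e
  have e' : r ^ (I.length + J.length + 1) * F.ER I J r k = 0 := by rw [e]; ring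
  exact (mul_eq_zero.1 e').resolve_left (pow_ne_zero _ hG.ne0)

/-- **a family with the relations and zero initial values vanishes** -/
theorem zero (hθ : θ ^ 8 = -1) (hr : Half θ χ q g F) (hl : Half θ⁻¹ χ⁻¹ g q F.mir)
    (h0 : Z θ q g F 0) : ∀ n, Z θ q g F n := by
  intro n
  induction n with
  | zero => exact h0
  | succ n ih =>
    intro I J hN
    have hθi := th_inv8 hθ
    have ihm := ih.mir hθ
    have hsw : ∀ {S : List ℂ}, G θ (q :: g :: S) → G θ⁻¹ (g :: q :: S) := fun hS =>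
      G.inv hθ (G.perm hθ (List.Perm.swap g q _) hS)
    -- single lines
    have s1 : ∀ a, G θ (a :: q :: g :: (I ++ J)) → F.R I J a = 0 ∧ F.L I J a = 0 := by
      intro a ha
      refine ⟨(stepR hθ hr ih hN ha.tail).1 a ha, ?_⟩
      exact (stepR hθi hl ihm hN (hsw ha.tail)).1 a
        (G.inv hθ (G.perm hθ ((List.Perm.swap g q _).cons a) ha))
    refine ⟨s1, fun a b hab => ?_⟩
    have hG := hab.tail.tail
    have habi : G θ⁻¹ (a :: b :: g :: q :: (I ++ J)) :=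
      G.inv hθ (G.perm hθ (((List.Perm.swap g q _).cons b).cons a) hab)
    have hbai : G θ⁻¹ (b :: a :: g :: q :: (I ++ J)) := G.perm hθi (List.Perm.swap b a _) habi
    refine ⟨(stepR hθ hr ih hN hG).2 a b hab, (stepR hθi hl ihm hN (hsw hG)).2 a b habi, ?_, ?_⟩
    · -- `RE a b` = mirror `ER b a`
      have ha : G θ (a :: q :: g :: (I ++ J)) := (G.perm hθ (List.Perm.swap b a _) hab).tail
      exact stepER hθi hl ihm hN (r := b) (k := a) hbai (s1 a ha).1
    · exact stepER hθ hr ih hN hab (s1 b hab.tail).2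

/-- **Uniqueness** -/
theorem uniq (hθ : θ ^ 8 = -1) (h : Data θ χ q g F) (h' : Data θ χ q g F') (I J : List ℂ) :
    (∀ a, G θ (a :: q :: g :: (I ++ J)) → F.R I J a = F'.R I J a ∧ F.L I J a = F'.L I J a) ∧
    (∀ a b, G θ (a :: b :: q :: g :: (I ++ J)) →
      (F.OE I J a b = F'.OE I J a b ∧ F.EO I J a b = F'.EO I J a b) ∧
      (F.OE' I J a b = F'.OE' I J a b ∧ F.EO' I J a b = F'.EO' I J a b) ∧
      F.RE I J a b = F'.RE I J a b ∧ F.ER I J a b = F'.ER I J a b) := by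
  have hz := zero hθ (h.right.sub h'.right) (by rw [mir_sub]; exact h.left.sub h'.left) (by
    intro I J hN
    obtain ⟨rfl, rfl⟩ : I = [] ∧ J = [] := by
      constructor <;> apply List.eq_nil_of_length_eq_zero <;> omega
    refine ⟨fun a ha => ?_, fun a b hab => ?_⟩
    · simp only [Fam.sub, sub_eq_zero]
      exact ⟨(h.R0 a ha).trans (h'.R0 a ha).symm, (h.L0 a ha).trans (h'.L0 a ha).symm⟩
    · simp only [Fam.sub, sub_eq_zero]
      exact ⟨⟨(h.OE0 a b hab).trans (h'.OE0 a b hab).symm,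
        (h.EO0 a b hab).trans (h'.EO0 a b hab).symm⟩,
        ⟨(h.OE'0 a b hab).trans (h'.OE'0 a b hab).symm,
        (h.EO'0 a b hab).trans (h'.EO'0 a b hab).symm⟩,
        (h.RE0 a b hab).trans (h'.RE0 a b hab).symm,
        (h.ER0 a b hab).trans (h'.ER0 a b hab).symm⟩) (I.length + J.length) I J rfl
  simp only [Fam.sub, sub_eq_zero] at hz
  exact hz

end NUTP

end
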