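import Pool.Agent.NUTP.Uniq

/-!
# From additive rapidities to the variables of `NUTP.Data`

`ea z = e ^ (i z)`, `th = e ^ (i λ)`, `λ = lam = π / 8`.
-/

set_option autoImplicit false

open Complex

noncomputable section

namespace NUTP

/-- `π / 8` -/
def lam : ℂ := ((Real.pi / 8 : ℝ) : ℂ)

/-- `e ^ (i z)` -/
def ea (z : ℂ) : ℂ := Complex.exp (I * z)

/-- `e ^ (i π / 8)` -/
def th : ℂ := ea lam

theorem ea_ne (z : ℂ) : ea z ≠ 0 := Complex.exp_ne_zero _

@[simp] theorem ea_zero : ea 0 = 1 := by simp [ea]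

theorem ea_add (z w : ℂ) : ea (z + w) = ea z * ea w := by
  unfold ea; rw [← Complex.exp_add]; congr 1; ring

theorem ea_neg (z : ℂ) : ea (-z) = (ea z)⁻¹ := by
  unfold ea; rw [← Complex.exp_neg]; congr 1; ring

theorem ea_sub (z w : ℂ) : ea (z - w) = ea z / ea w := by
  rw [sub_eq_add_neg, ea_add, ea_neg, div_eq_mul_inv]

theorem ea_nat (k : ℕ) (z : ℂ) : ea (k * z) = ea z ^ k := by
  unfold ea; rw [← Complex.exp_nat_mul]; congr 1; ring

theorem th_pow (k : ℕ) : th ^ k = ea (k * lam) := (ea_nat k lam).symm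

theorem th4 : th ^ 4 = I := by
  rw [th_pow]
  unfold ea lam
  push_cast
  rw [show I * (4 * ((Real.pi : ℂ) / 8)) = (Real.pi / 2 : ℂ) * I by ring, Complex.exp_mul_I,
    Complex.cos_pi_div_two, Complex.sin_pi_div_two]
  ring

theorem th8 : th ^ 8 = -1 := by
  rw [show (8 : ℕ) = 4 * 2 from rfl, pow_mul, th4, I_sq]

theorem th_ne_zero : th ≠ 0 := ea_ne _

theorem th13 (z : ℂ) : th ^ 13 * ea z = ea (z - 3 * lam) := by
  rw [ea_sub, show (3 * lam : ℂ) = ((3 : ℕ) : ℂ) * lam by norm_num, ea_nat,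
    eq_div_iff (pow_ne_zero _ (ea_ne _))]
  change th ^ 13 * ea z * th ^ 3 = ea z
  linear_combination ea z * th16 th8

theorem th3 (z : ℂ) : th ^ 3 * ea z = ea (z + 3 * lam) := by
  rw [ea_add, show (3 * lam : ℂ) = ((3 : ℕ) : ℂ) * lam by norm_num, ea_nat]
  change th ^ 3 * ea z = ea z * th ^ 3
  ring

theorem th2 (z : ℂ) : th ^ 2 * ea z = ea (z + 2 * lam) := by
  rw [ea_add, show (2 * lam : ℂ) = ((2 : ℕ) : ℂ) * lam by norm_num, ea_nat]
  change th ^ 2 * ea z = ea z * th ^ 2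
  ring

theorem th1 (z : ℂ) : th * ea z = ea (z + lam) := by
  rw [ea_add]
  change th * ea z = ea z * th
  ring

theorem th10_sq (z : ℂ) : th ^ 10 * ea z ^ 2 = ea (z - 3 * lam) ^ 2 := by
  rw [← th13]
  linear_combination (-(th ^ 10 * ea z ^ 2)) * th16 th8

theorem th6_sq (z : ℂ) : th ^ 6 * ea z ^ 2 = ea (z + 3 * lam) ^ 2 := by
  rw [← th3]; ring

theorem th4_sq (z : ℂ) : th ^ 4 * ea z ^ 2 = ea (z + 2 * lam) ^ 2 := by
  rw [← th2]; ring

/-- `sn` is `sin` -/
theorem sn_ea (k : ℕ) (z : ℂ) : sn th k (ea z) = Complex.sin (z + k * lam) := by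
  unfold sn
  rw [th_pow, ← ea_add, th4, ← ea_neg, Complex.sin]
  unfold ea
  rw [show (k : ℂ) * lam + z = z + k * lam by ring]
  rw [show I * (z + k * lam) = (z + k * lam) * I by ring,
    show I * -(z + k * lam) = -(z + k * lam) * I by ring]
  rw [div_eq_div_iff (by simp) (by norm_num)]
  linear_combination (-(2 * (Complex.exp (-(z + k * lam) * I) -
    Complex.exp ((z + k * lam) * I)))) * I_sq

theorem sn_div (k : ℕ) (z w : ℂ) : sn th k (ea z / ea w) = Complex.sin (z - w + k * lam) := by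
  rw [← ea_sub, sn_ea]

theorem sn_one (k : ℕ) : sn th k 1 = Complex.sin (k * lam) := by
  rw [← ea_zero, sn_ea, zero_add]

theorem cs_ea (z : ℂ) : cs (ea z) = Complex.cos z := by
  unfold cs
  rw [← ea_neg, Complex.cos]
  unfold ea
  rw [show I * z = z * I by ring, show I * -z = -z * I by ring]

theorem cs_div (z w : ℂ) : cs (ea z / ea w) = Complex.cos (z - w) := by
  rw [← ea_sub, cs_ea]

/-- the mirror: `θ⁻¹` means that the rapidities are negated -/
theorem sn_inv {θ : ℂ} (hθ : θ ^ 8 = -1) (k : ℕ) (u : ℂ) : sn θ⁻¹ k u = sn θ k u⁻¹ := by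
  have h0 := th_ne hθ
  have h4 : θ⁻¹ ^ 4 = -θ ^ 4 := by
    rw [inv_pow]
    apply inv_eq_of_mul_eq_one_right
    linear_combination -hθ
  unfold sn
  rw [h4]
  have e1 : (θ⁻¹ ^ k * u)⁻¹ = θ ^ k * u⁻¹ := by rw [mul_inv, inv_pow, inv_inv]
  have e2 : (θ ^ k * u⁻¹)⁻¹ = θ⁻¹ ^ k * u := by rw [mul_inv, inv_inv, inv_pow]
  rw [e1, e2]
  have h5 : θ ^ 4 ≠ 0 := pow_ne_zero _ h0
  rw [div_eq_div_iff (by simpa using h5) (by simpa using h5)]
  ring

theorem cs_inv (u : ℂ) : cs u⁻¹ = cs u := by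
  unfold cs; rw [inv_inv, add_comm]

theorem sn_inv_div (k : ℕ) (z w : ℂ) :
    sn th⁻¹ k (ea z / ea w) = Complex.sin (w - z + k * lam) := by
  rw [sn_inv th8, inv_div, sn_div]

theorem inv13 {θ : ℂ} (hθ : θ ^ 8 = -1) : θ⁻¹ ^ 13 = θ ^ 3 := by
  rw [inv_pow]
  apply inv_eq_of_mul_eq_one_right
  linear_combination th16 hθ

theorem inv3 {θ : ℂ} (hθ : θ ^ 8 = -1) : θ⁻¹ ^ 3 = θ ^ 13 := by
  rw [inv_pow]
  apply inv_eq_of_mul_eq_one_right
  linear_combination th16 hθ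

theorem inv10 {θ : ℂ} (hθ : θ ^ 8 = -1) : θ⁻¹ ^ 10 = θ ^ 6 := by
  rw [inv_pow]
  apply inv_eq_of_mul_eq_one_right
  linear_combination th16 hθ

theorem inv6 {θ : ℂ} (hθ : θ ^ 8 = -1) : θ⁻¹ ^ 6 = θ ^ 10 := by
  rw [inv_pow]
  apply inv_eq_of_mul_eq_one_right
  linear_combination th16 hθ

theorem inv4 {θ : ℂ} (hθ : θ ^ 8 = -1) : θ⁻¹ ^ 4 = θ ^ 12 := by
  rw [inv_pow]
  apply inv_eq_of_mul_eq_one_right
  linear_combination th16 hθ

/-- generic in additive terms -/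
theorem sep_ea (z w : ℂ) : NUGas.Sep (th ^ 2) (ea z ^ 2) (ea w ^ 2) ↔
    ∀ k : ℕ, Complex.sin (z - w + k * lam) ≠ 0 := by
  have key : ∀ k : ℕ, (th ^ 2) ^ k * ea z ^ 2 = ea w ^ 2 ↔
      Complex.sin (z - w + k * lam) = 0 := by
    intro k
    have h1 : sn th k (ea z / ea w) = Complex.sin (z - w + k * lam) := sn_div k z w
    rw [← h1]
    unfold sn
    have h0 := th_ne_zero
    have hz := ea_ne z
    have hw := ea_ne w
    have hk : th ^ k * (ea z / ea w) ≠ 0 := mul_ne_zero (pow_ne_zero _ h0) (div_ne_zero hz hw)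
    rw [div_eq_zero_iff, or_iff_left (by simpa using h0), sub_eq_zero]
    constructor
    · intro h
      rw [← mul_eq_one_iff_eq_inv₀ hk]
      have : th ^ k * (ea z / ea w) * (th ^ k * (ea z / ea w)) =
          ((th ^ 2) ^ k * ea z ^ 2) / ea w ^ 2 := by
        field_simp
        rw [← pow_mul, ← pow_mul, mul_comm]
      rw [this, h, div_self (pow_ne_zero _ hw)]
    · intro h
      rw [← mul_eq_one_iff_eq_inv₀ hk] at h
      have : th ^ k * (ea z / ea w) * (th ^ k * (ea z / ea w)) =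
          ((th ^ 2) ^ k * ea z ^ 2) / ea w ^ 2 := by
        field_simp
        rw [← pow_mul, ← pow_mul, mul_comm]
      rw [this, div_eq_one_iff_eq (pow_ne_zero _ hw)] at h
      exact h
  constructor
  · intro h k hk
    exact h k ((key k).2 hk)
  · intro h k hk
    exact h k ((key k).1 hk)

theorem G_ea (L : List ℂ) : G th (L.map ea) ↔
    L.Pairwise fun z w => ∀ k : ℕ, Complex.sin (z - w + k * lam) ≠ 0 := by
  unfold G NUGas.Gen
  rw [List.map_map, List.pairwise_map]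
  constructor
  · rintro ⟨-, h⟩
    exact h.imp fun {a b} hab => (sep_ea a b).1 hab
  · intro h
    refine ⟨?_, h.imp fun {a b} hab => (sep_ea a b).2 hab⟩
    intro x hx
    obtain ⟨a, -, rfl⟩ := List.mem_map.1 hx
    exact pow_ne_zero _ (ea_ne a)

/-- every nonzero number is `ea z` -/
theorem ea_surj {a : ℂ} (ha : a ≠ 0) : ∃ z, ea z = a := by
  refine ⟨-I * Complex.log a, ?_⟩
  unfold ea
  rw [show I * (-I * Complex.log a) = -(I * I) * Complex.log a by ring, I_mul_I, neg_neg, one_mul,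
    Complex.exp_log ha]

end NUTP

end
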