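import Pool.Agent.NUF.Gas.Uniq

/-!
# The two-point functions with ended lines: the list of properties (exact/TWOPOINT_UNIQ_h89)

A line is given by `a = e ^ (i z)` (nonzero, not squared), `θ = e ^ (i λ)`, `λ = π / 8`
(`θ ^ 8 = -1`, `i = θ ^ 4`), `χ ^ 2 = ζ` (winding weight).  `I`, `J` = the full lines, fixed ends at
`f'`: `q` (right, occupied) and `g` (left, empty).  Ends at `f`:

* `R p`: right, occupied; `L h`: left, occupied;
* `OE a b`: right, `a` occupied below `b` empty; `EO a b`: right, `a` empty below `b` occupied;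
  `OE' a b`, `EO' a b`: the same on the left;
* `RE p h`: right `p` occupied, left `h` empty; `ER r h`: right `r` empty, left `h` occupied.

The functions are `W^ = B_right B_left W` (exact/TWOPOINT_UNIQ_h89, sect. 1); with `N = |I| + |J|`
and `n` lines on the side of the line `a` they are `a ^ (-(n-1)) P (a ^ 2)`, `deg P ≤ n - 1` for an
empty line, `a ^ (-(n-2)) P (a ^ 2)`, `deg P ≤ n - 2` for an occupied one.
All properties below were checked mod p on the gas (near form), both sides.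

`Half θ χ q g F`: the relations in the lines of the right side.  The left side: the same for the
mirror family with `θ⁻¹`, `χ⁻¹`, `g` and `q` exchanged.  Relations at special points are stated for
the polynomials.
-/

set_option autoImplicit false

open Polynomial

noncomputable section

namespace NUTP

open NUGas (Gen Sep)

/-- `sin (z + k λ)`, `u = e ^ (i z)` -/
def sn (θ : ℂ) (k : ℕ) (u : ℂ) : ℂ := (θ ^ k * u - (θ ^ k * u)⁻¹) / (2 * θ ^ 4)

/-- `cos z`, `u = e ^ (i z)` -/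
def cs (u : ℂ) : ℂ := (u + u⁻¹) / 2

/-- `sin (z + 2 λ) sin (z + 3 λ)` -/
def sk (θ u : ℂ) : ℂ := sn θ 2 u * sn θ 3 u

/-- generic lines: no two differ by a multiple of `λ` -/
def G (θ : ℂ) (S : List ℂ) : Prop := Gen (θ ^ 2) (S.map (· ^ 2))

/-- the eight functions (`q`, `g` fixed) -/
structure Fam where
  /-- right: occupied -/
  R : List ℂ → List ℂ → ℂ → ℂ
  /-- left: occupied -/
  L : List ℂ → List ℂ → ℂ → ℂ
  /-- right: occupied below empty -/
  OE : List ℂ → List ℂ → ℂ → ℂ → ℂ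
  /-- right: empty below occupied -/
  EO : List ℂ → List ℂ → ℂ → ℂ → ℂ
  /-- left: occupied below empty -/
  OE' : List ℂ → List ℂ → ℂ → ℂ → ℂ
  /-- left: empty below occupied -/
  EO' : List ℂ → List ℂ → ℂ → ℂ → ℂ
  /-- right occupied (first argument), left empty (second argument) -/
  RE : List ℂ → List ℂ → ℂ → ℂ → ℂ
  /-- right empty (first argument), left occupied (second argument) -/
  ER : List ℂ → List ℂ → ℂ → ℂ → ℂ

/-- left and right exchanged -/
def Fam.mir (F : Fam) : Fam where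
  R := F.L
  L := F.R
  OE := F.OE'
  EO := F.EO'
  OE' := F.OE
  EO' := F.EO
  RE := fun I J a b => F.ER I J b a
  ER := fun I J a b => F.RE I J b a

/-- node `x - 3 λ` (lowest line): `S` = the other lines of the side, `k` = the exponent -/
def dn (θ : ℂ) (k : ℕ) (x : ℂ) (S : List ℂ) : ℂ :=
  (θ ^ 13 * x) ^ k * (sn θ 1 1 * (S.map fun c => sk θ (x / c)).prod)

/-- node `y + 3 λ` (highest line): `S` = the other lines of the side, `k` = the exponent -/
def up (θ : ℂ) (k : ℕ) (y : ℂ) (S : List ℂ) : ℂ :=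
  (θ ^ 3 * y) ^ k * (sn θ 1 1 * (S.map fun c => sk θ (c / y)).prod)

/-- top coefficient: `S` = the other lines of the side -/
def tp (S : List ℂ) : ℂ := (S.map fun c => (2 * c)⁻¹).prod

/-- bottom coefficient: `S` = the other lines of the side -/
def bt (S : List ℂ) : ℂ := (S.map fun c => c / 2).prod

/-- the relations in the lines of one side -/
structure Half (θ χ q g : ℂ) (F : Fam) : Prop where
  /-- `R` in its (occupied) line -/
  polR : ∀ I J : List ℂ, G θ (q :: g :: (I ++ J)) → ∃ P : ℂ[X],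
    P.natDegree ≤ I.length + J.length ∧
    (∀ p, G θ (p :: q :: g :: (I ++ J)) → p ^ (I.length + J.length) * F.R I J p = P.eval (p ^ 2)) ∧
    (∀ x I', I.Perm (x :: I') → P.eval (θ ^ 10 * x ^ 2) =
      χ⁻¹ * dn θ (I.length + J.length) x (q :: (I' ++ J)) * F.L I' J x) ∧
    (∀ y J', J.Perm (y :: J') → P.eval (θ ^ 6 * y ^ 2) =
      χ * up θ (I.length + J.length) y (q :: (I ++ J')) * F.L I J' y)
  /-- `OE` in the empty line `b` -/
  polOE : ∀ (I J : List ℂ) (a : ℂ), G θ (a :: q :: g :: (I ++ J)) → ∃ P : ℂ[X],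
    P.natDegree ≤ I.length + J.length + 2 ∧
    P.coeff (I.length + J.length + 2) = tp (a :: q :: (I ++ J)) * F.R I J a ∧
    P.coeff 0 = bt (a :: q :: (I ++ J)) * F.R I J a ∧
    (∀ b, G θ (b :: a :: q :: g :: (I ++ J)) →
      b ^ (I.length + J.length + 2) * F.OE I J a b = P.eval (b ^ 2)) ∧
    (∀ y J', J.Perm (y :: J') → P.eval (θ ^ 6 * y ^ 2) =
      up θ (I.length + J.length + 2) y (a :: q :: (I ++ J')) * F.RE I J' a y) ∧
    P.eval (θ ^ 10 * a ^ 2) = 0
  /-- `OE` in the occupied line `a` -/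
  polOEo : ∀ (I J : List ℂ) (b : ℂ), G θ (b :: q :: g :: (I ++ J)) → ∃ P : ℂ[X],
    (∀ a, G θ (a :: b :: q :: g :: (I ++ J)) →
      a ^ (I.length + J.length + 1) * F.OE I J a b = P.eval (a ^ 2)) ∧
    (∀ x I', I.Perm (x :: I') → P.eval (θ ^ 10 * x ^ 2) =
      χ⁻¹ * dn θ (I.length + J.length + 1) x (b :: q :: (I' ++ J)) * F.ER I' J b x)
  /-- `EO` in the empty line `a` -/
  polEO : ∀ (I J : List ℂ) (b : ℂ), G θ (b :: q :: g :: (I ++ J)) → ∃ P : ℂ[X],
    P.natDegree ≤ I.length + J.length + 2 ∧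
    P.coeff (I.length + J.length + 2) = tp (b :: q :: (I ++ J)) * F.R I J b ∧
    P.coeff 0 = bt (b :: q :: (I ++ J)) * F.R I J b ∧
    (∀ a, G θ (a :: b :: q :: g :: (I ++ J)) →
      a ^ (I.length + J.length + 2) * F.EO I J a b = P.eval (a ^ 2)) ∧
    (∀ x I', I.Perm (x :: I') → P.eval (θ ^ 10 * x ^ 2) =
      dn θ (I.length + J.length + 2) x (b :: q :: (I' ++ J)) * F.RE I' J b x) ∧
    P.eval (θ ^ 6 * b ^ 2) = 0 ∧
    P.eval (θ ^ 4 * b ^ 2) = (θ ^ 2 * b) ^ (I.length + J.length + 2) *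
      (sn θ 1 1 * ((q :: (I ++ J)).map fun c => cs (θ * b / c)).prod) * F.R I J (θ * b)
  /-- `EO` in the occupied line `b` -/
  polEOo : ∀ (I J : List ℂ) (a : ℂ), G θ (a :: q :: g :: (I ++ J)) → ∃ P : ℂ[X],
    (∀ b, G θ (b :: a :: q :: g :: (I ++ J)) →
      b ^ (I.length + J.length + 1) * F.EO I J a b = P.eval (b ^ 2)) ∧
    (∀ y J', J.Perm (y :: J') → P.eval (θ ^ 6 * y ^ 2) =
      χ * up θ (I.length + J.length + 1) y (a :: q :: (I ++ J')) * F.ER I J' a y)
  /-- exchange of the two ends, first relation -/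
  ex1 : ∀ (I J : List ℂ) (a b : ℂ), G θ (a :: b :: q :: g :: (I ++ J)) →
    sk θ (b / a) * F.OE I J b a =
      sn θ 3 (a / b) * (sn θ 2 1 * F.OE I J a b + sn θ 0 (b / a) * F.EO I J a b)
  /-- exchange of the two ends, second relation -/
  ex2 : ∀ (I J : List ℂ) (a b : ℂ), G θ (a :: b :: q :: g :: (I ++ J)) →
    sk θ (b / a) * F.EO I J b a =
      sn θ 3 (a / b) * (sn θ 2 1 * F.EO I J a b + sn θ 0 (b / a) * F.OE I J a b)
  /-- `ER` in the empty right line -/
  polER : ∀ (I J : List ℂ) (h : ℂ), G θ (h :: q :: g :: (I ++ J)) → ∃ P : ℂ[X],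
    P.natDegree ≤ I.length + J.length + 1 ∧
    P.coeff (I.length + J.length + 1) = tp (q :: (I ++ J)) * F.L I J h ∧
    P.coeff 0 = bt (q :: (I ++ J)) * F.L I J h ∧
    (∀ r, G θ (r :: h :: q :: g :: (I ++ J)) →
      r ^ (I.length + J.length + 1) * F.ER I J r h = P.eval (r ^ 2)) ∧
    (∀ x I', I.Perm (x :: I') → P.eval (θ ^ 10 * x ^ 2) =
      dn θ (I.length + J.length + 1) x (q :: (I' ++ J)) * F.EO' I' J x h) ∧
    (∀ y J', J.Perm (y :: J') → P.eval (θ ^ 6 * y ^ 2) =
      up θ (I.length + J.length + 1) y (q :: (I ++ J')) * F.OE' I J' h y)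

/-- **the list of properties** which determine the eight functions -/
structure Data (θ χ q g : ℂ) (F : Fam) : Prop where
  right : Half θ χ q g F
  left : Half θ⁻¹ χ⁻¹ g q F.mir
  R0 : ∀ p, G θ [p, q, g] → F.R [] [] p = sn θ 1 1
  L0 : ∀ h, G θ [h, q, g] → F.L [] [] h = 0
  OE0 : ∀ a b, G θ [a, b, q, g] →
    F.OE [] [] a b = sn θ 1 1 * (sn θ 3 (b / a) * sn θ 3 (q / b))
  EO0 : ∀ a b, G θ [a, b, q, g] →
    F.EO [] [] a b = sn θ 1 1 * (sn θ 3 (b / a) * sn θ 3 (a / q))
  OE'0 : ∀ a b, G θ [a, b, q, g] → F.OE' [] [] a b = 0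
  EO'0 : ∀ a b, G θ [a, b, q, g] → F.EO' [] [] a b = 0
  RE0 : ∀ p h, G θ [p, h, q, g] → F.RE [] [] p h = sn θ 1 1 * cs (h / g)
  ER0 : ∀ r h, G θ [r, h, q, g] → F.ER [] [] r h = 0

end NUTP

end
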